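import Pool.Agent.W917.Flip.FinCase

/-!
# The flip automorphism is not trivial on any uncountable set

The automorphism `TT X` of the power set of `X` modulo the finite sets, in the extension by the
Cohen reals with index set `X`, sends the set named by `A` to the set of all `x` that belong to `A`
evaluated with the bit number `x` of the generic sequence flipped. Here it is shown that this
automorphism is an involution, that it fixes the sets of the ground model, and that it is not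
trivial on any uncountable set of the extension.
-/

set_option autoImplicit false

namespace Pool.Agent.U517.AF

open Cardinal Set Pool.Agent.H65R3.Forc Pool.Agent.W917.Flip
open Pool.Agent.H631R2 (Cond)

/-- The relation named by `T` is symmetric: if `A` is related to `B` then `B` is related to `A`. -/
def Symm {P X : Type} [Preorder P] (T : RelName P X) : Set P :=
  fall fun A : SetName P X => fall fun B : SetName P X => fimp (Rel T A B) (Rel T B A)

/-- Every subset of `X` which lies in the ground model is related to itself. -/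
def FixesGround {P X : Type} [Preorder P] (T : RelName P X) : Set P :=
  fall fun W : Set X => Rel T (fun x => {_p | x ∈ W}) (fun x => {_p | x ∈ W})

/-- The automorphism given by the relation named by `T` is not trivial on any uncountable subset
of `X`. -/
def NowhereTrivial {P X : Type} [Preorder P] (T : RelName P X) : Set P :=
  fall fun D : SetName P X => fimp (fnot (CtblSet (Mem D))) (fnot (IsTrivialOn T D))

variable {X : Type}

theorem symm_TT (p : Cond X) : p ∈ Symm (TT X) := by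
  intro A B
  rw [mem_fimp]
  intro q _ hq
  refine ⟨q, le_rfl, ?_⟩
  apply mem_fex.2
  intro r hr
  obtain ⟨s, hs, A', hA'⟩ := mem_fex.1 hq r hr
  obtain ⟨t, ht, B', hB', hAA', hBB'⟩ := mem_fex.1 hA' s le_rfl
  refine ⟨t, ht.trans hs, B', ?_⟩
  refine mem_fex_of_mem A' (down_fand (down_meets _) (down_fand (down_Same _ _) (down_Same _ _)))
    ⟨?_, hBB', hAA'⟩
  intro u hu
  obtain ⟨v, hv, w, hw, hvw⟩ := hB' u hu
  have hw' : B' = flN A' := hw
  refine ⟨v, hv, w, ?_, hvw⟩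
  change A' = flN B'
  rw [hw', flN_flN]

theorem fixes_TT (p : Cond X) : p ∈ FixesGround (TT X) := by
  intro W
  exact rel_TT (chk W) p

theorem unc_nontrivial (p : Cond X) : p ∈ NowhereTrivial (TT X) := by
  intro D
  rw [mem_fimp]
  intro q _ hqD
  refine ⟨q, le_rfl, ?_⟩
  intro r hr hrT
  obtain ⟨r2, hr2, E, ⟨hE1, hE1'⟩, hE2⟩ := mem_fex.1 hrT r le_rfl
  have hDu : r2 ∈ fnot (CtblSet (Mem D)) := down_fnot _ _ hqD _ (hr2.trans hr)
  have useE : ∀ B : SetName (Cond X) X, (∀ x, ∀ t ∈ B x, t ∈ Mem D x) →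
      r2 ∈ AS Set.Finite (Mem (flN B)) (Img E B) ∧
      r2 ∈ AS Set.Finite (Img E B) (Mem (flN B)) := by
    intro B hB
    have h1 : ∀ q ≤ r2, ∃ r ≤ q, r ∈ AS Set.Finite (Mem (flN B)) (Img E B) ∧
        r ∈ AS Set.Finite (Img E B) (Mem (flN B)) := by
      intro q hq
      obtain ⟨r, hr, hr'⟩ := mem_fimp.1 (hE2 B (flN B)) q hq ⟨fun x => by
        rw [mem_fimp]
        intro s hs hs'
        obtain ⟨s1, hs1, t, ht, hst⟩ := hs' s le_rfl
        exact ⟨s1, hs1, down_meets _ _ (hB x t ht) _ hst⟩, rel_TT B q⟩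
      refine ⟨r, hr, ?_⟩
      rw [AlmostSub, AlmostSub, finSet_eq, finSet_eq] at hr'
      exact hr'
    constructor
    · exact reg_Cov fun q hq => by
        obtain ⟨r, hr, h, _⟩ := h1 q hq
        exact ⟨r, hr, h⟩
    · exact reg_Cov fun q hq => by
        obtain ⟨r, hr, _, h⟩ := h1 q hq
        exact ⟨r, hr, h⟩
  have uniq : ∀ {s : Cond X} {x y y' : X}, s ≤ r2 → s ∈ meets (E x y) → s ∈ meets (E x y') →
      y = y' := by
    intro s x y y' hs h1 h2
    obtain ⟨t, _, ht⟩ := mem_fimp.1 (hE1' x y y') s hs ⟨h1, h2⟩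
    exact ht
  -- the fibres are finite
  have hfib : ∀ a : X, r2 ∈ Cov Set.Finite
      (Mem fun x => {p | p ∈ Mem D x ∧ p ∈ meets (E x a)}) := by
    intro a
    let A : SetName (Cond X) X := fun x => {p | p ∈ Mem D x ∧ p ∈ meets (E x a)}
    have h1 := (useE A (fun x t ht => ht.1)).1
    have h2 : r2 ∈ Cov Set.Finite (Img E A) := by
      intro q hq
      refine ⟨q, le_rfl, {a}, Set.finite_singleton a, fun y hy s hs hs' => ?_⟩
      obtain ⟨t, ht, x, hx1, hx2⟩ := mem_fex.1 hs' s le_rfl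
      obtain ⟨u, hu, v, hv, huv⟩ := hx2 t le_rfl
      have h3 : u ∈ meets (E x a) := down_meets _ _ hv.2 _ huv
      exact hy (uniq (hu.trans (ht.trans (hs.trans hq))) (down_meets _ _ hx1 _ hu) h3)
    have h3 := cov_flip ideal_fin (AS_cov ideal_fin h1 h2)
    have h4 : (fun x => flS x (Mem (flN A) x)) = Mem A := by
      funext x
      rw [← mem_flN, flN_flN]
    rw [h4] at h3
    exact h3
  -- there are only finitely many fixed points
  have hfix : r2 ∈ Cov Set.Finite (Mem fun x => {p | p ∈ Mem D x ∧ p ∈ meets (E x x)}) := by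
    let A : SetName (Cond X) X := fun x => {p | p ∈ Mem D x ∧ p ∈ meets (E x x)}
    let Ab : Bool → SetName (Cond X) X := fun b x => {p | p ∈ A x ∧ (x, b) ∈ p.s}
    have hAdown : ∀ x, Down (A x) := fun x p hp q hq =>
      ⟨down_meets _ _ hp.1 _ hq, down_meets _ _ hp.2 _ hq⟩
    have hA := (useE A (fun x t ht => ht.1)).2
    have hB := fun b => (useE (Ab b) (fun x t ht => ht.1.1)).1
    intro q hq
    obtain ⟨q1, hq1, S1, hS1, hq1S⟩ := hA q hq
    obtain ⟨q2, hq2, S2, hS2, hq2S⟩ := hB true q1 (hq1.trans hq)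
    obtain ⟨q3, hq3, S3, hS3, hq3S⟩ := hB false q2 (hq2.trans (hq1.trans hq))
    have hq32 : q3 ≤ r2 := hq3.trans (hq2.trans (hq1.trans hq))
    have hAb : ∀ b, ∀ x ∉ S1 ∪ (S2 ∪ S3),
        q3 ∈ fnot (fand (Mem (flN (Ab b)) x) (fnot (Img E (Ab b) x))) := by
      intro b x hx
      cases b with
      | true => exact down_fnot _ _ (hq2S x fun h => hx (Or.inr (Or.inl h))) _ hq3
      | false => exact hq3S x fun h => hx (Or.inr (Or.inr h))
    refine ⟨q3, hq3.trans (hq2.trans hq1), S1 ∪ (S2 ∪ S3), hS1.union (hS2.union hS3),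
      fun x hx s hs hs' => ?_⟩
    -- a condition in `A x` which decides the bit number `x`
    obtain ⟨s1, hs1, t, ht, hst⟩ := hs' s le_rfl
    have hs1A : s1 ∈ A x := hAdown x _ ht _ hst
    obtain ⟨s2, hs2, c, hc⟩ : ∃ s2 ≤ s1, ∃ c : Bool, (x, c) ∈ s2.s := by
      by_cases hxd : x ∈ s1.dom
      · obtain ⟨b, hb⟩ := Cond.mem_dom.1 hxd
        exact ⟨s1, le_rfl, b, hb⟩
      · obtain ⟨px, hpx, hpx', -⟩ := Cond.exists_ext s1 hxd true
        exact ⟨px, hpx, true, hpx'⟩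
    have hs2A : s2 ∈ A x := hAdown x _ hs1A _ hs2
    have hs23 : s2 ≤ q3 := hs2.trans (hs1.trans hs)
    have hI : s2 ∈ Img E A x :=
      mem_fex_of_mem x (down_fand (down_meets _) (down_meets _)) ⟨hs2A.2, meets_of_mem hs2A⟩
    have h1 := hq1S x (fun h => hx (Or.inl h)) s2 (hs23.trans (hq3.trans hq2))
    have h2 : s2 ∉ fnot (Mem (flN A) x) := fun h2 => h1 ⟨hI, h2⟩
    rw [mem_fnot] at h2
    push Not at h2
    obtain ⟨v, hv, hv'⟩ := h2
    obtain ⟨v1, hv1, w, hw, hvw⟩ := hv' v le_rfl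
    have hv1A : fl x v1 ∈ A x := hAdown x _ (show fl x w ∈ A x from hw) _ (fl_le hvw)
    have hv1c : (x, c) ∈ v1.s := hv1 (hv hc)
    have hv1B : v1 ∈ Mem (flN (Ab !c)) x := by
      apply meets_of_mem
      refine ⟨hv1A, ?_⟩
      change (x, !c) ∈ (fl x v1).s
      rw [mem_fl, fpt_self, Bool.not_not]
      exact hv1c
    have hv1s : v1 ≤ q3 := hv1.trans (hv.trans hs23)
    have h3 := hAb (!c) x hx v1 hv1s
    have h4 : v1 ∉ fnot (Img E (Ab !c) x) := fun h4 => h3 ⟨hv1B, h4⟩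
    rw [mem_fnot] at h4
    push Not at h4
    obtain ⟨w1, hw1, hw1'⟩ := h4
    obtain ⟨w2, hw2, z, hz1, hz2⟩ := mem_fex.1 hw1' w1 le_rfl
    obtain ⟨w3, hw3, w4, hw4, hw34⟩ := hz2 w2 le_rfl
    have hw3A : w3 ∈ A z := hAdown z _ hw4.1 _ hw34
    have hzx : z = x := uniq (hw3.trans (hw2.trans (hw1.trans (hv1s.trans hq32)))) hw3A.2
      (down_meets _ _ hz1 _ hw3)
    subst hzx
    have hA1 : (z, !c) ∈ w3.s := hw34 hw4.2
    have hA2 : (z, c) ∈ w3.s := hw3 (hw2 (hw1 hv1c))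
    have := Cond.unique hA1 hA2
    cases c <;> simp at this
  obtain ⟨r3, hr3, S1, hS1, hrS1⟩ := hfix r2 le_rfl
  set Z0 : Set X := {x | x ∉ S1 ∧ ∃ q' ≤ r3, q' ∈ Mem D x} with hZ0
  have key : ∀ x : X, ∃ q' : Cond X, ∃ y : X, x ∈ Z0 →
      q' ≤ r3 ∧ q' ∈ Mem D x ∧ q' ∈ meets (E x y) ∧ y ≠ x := by
    intro x
    by_cases hx : x ∈ Z0
    · obtain ⟨hx1, q', hq', hq'D⟩ := hx
      obtain ⟨s, hs, hs'⟩ := mem_fimp.1 (hE1 x) q' (hq'.trans hr3) hq'D
      obtain ⟨t, ht, y, hy⟩ := mem_fex.1 hs' s le_rfl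
      have htD : t ∈ Mem D x := down_meets _ _ hq'D _ (ht.trans hs)
      have htr : t ≤ r3 := ht.trans (hs.trans hq')
      refine ⟨t, y, fun _ => ⟨htr, htD, hy, ?_⟩⟩
      rintro rfl
      exact hrS1 y hx1 t htr (meets_of_mem ⟨htD, hy⟩)
    · exact ⟨r3, x, fun h => absurd h hx⟩
  choose q y hq using key
  have hZ : ¬ #Z0 ≤ ℵ₀ := by
    intro hZ
    refine hDu r3 hr3 ?_
    rw [ctblSet_eq]
    intro q hq
    refine ⟨q, le_rfl, S1 ∪ Z0, (ideal_card le_rfl).union _ _
      ((ideal_card le_rfl).fin _ hS1) hZ, fun x hx s hs hs' => hx (Or.inr ⟨fun h => hx (Or.inl h),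
        s, hs.trans hq, hs'⟩)⟩
  obtain ⟨Z, r4, hZs, hZc, hr4, hd⟩ := Cond.delta le_rfl _ hZ q
  obtain ⟨e, he, e', he', hne⟩ := two_mem le_rfl hZc
  have hr43 : r4 ≤ r3 := root_le hr4 hd he he' hne fun x hx => (hq x (hZs hx)).1
  have hr42 : r4 ≤ r2 := hr43.trans hr3
  have hyfib : ∀ a, {x ∈ Z | y x = a}.Finite := by
    intro a
    obtain ⟨s, hs, S, hS, hsS⟩ := hfib a r4 hr42
    refine (hS.union (bad_finite hr4 hd hs)).subset ?_
    rintro x ⟨hx, hxa⟩
    by_contra hcon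
    simp only [mem_union, not_or] at hcon
    obtain ⟨hxS, hxb⟩ := hcon
    have hcomp : ∃ u, u ≤ s ∧ u ≤ q x := by
      by_contra h'
      exact hxb ⟨hx, h'⟩
    obtain ⟨u, hus, huq⟩ := hcomp
    refine hsS x hxS u hus (meets_of_mem ⟨down_meets _ _ (hq x (hZs hx)).2.1 _ huq, ?_⟩)
    rw [← hxa]
    exact down_meets _ _ (hq x (hZs hx)).2.2.1 _ huq
  obtain ⟨B, hBZ, hfree, hmax⟩ := exists_max_free Z y fun x hx => (hq x (hZs hx)).2.2.2
  have hBinf : B.Infinite := by
    intro hBf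
    apply hZc
    have hZfin : Z.Finite := by
      refine Set.Finite.subset ?_ hmax
      exact (hBf.union (hBf.image y)).union (hBf.biUnion fun a _ => hyfib a)
    exact hZfin.lt_aleph0.le
  have h2 := (useE (fun x => {p | x ∈ B ∧ p ∈ Mem D x}) (fun x t ht => ht.2)).2
  obtain ⟨r5, hr5, S2, hS2, hrS2⟩ := h2 r4 hr42
  have hexc : (bad Z q r5 ∪ ⋃ a ∈ S2, {x ∈ Z | y x = a}).Finite :=
    (bad_finite hr4 hd hr5).union (hS2.biUnion fun a _ => hyfib a)
  obtain ⟨x, hxB, hxe⟩ := hBinf.exists_notMem_finite hexc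
  simp only [mem_union, not_or, mem_iUnion, not_exists] at hxe
  obtain ⟨hxb, hxS⟩ := hxe
  have hcomp : ∃ u, u ≤ r5 ∧ u ≤ q x := by
    by_contra h'
    exact hxb ⟨hBZ hxB, h'⟩
  obtain ⟨u, hu5, huq⟩ := hcomp
  have hyS : y x ∉ S2 := fun h' => hxS (y x) h' ⟨hBZ hxB, rfl⟩
  have h6 := hrS2 (y x) hyS u hu5
  have hqx := hq x (hZs (hBZ hxB))
  have h5 : u ∈ Img E (fun x => {p | x ∈ B ∧ p ∈ Mem D x}) (y x) :=
    mem_fex_of_mem x (down_fand (down_meets _) (down_meets _))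
      ⟨down_meets _ _ hqx.2.2.1 _ huq, meets_of_mem ⟨hxB, down_meets _ _ hqx.2.1 _ huq⟩⟩
  have h7 : u ∉ fnot (Mem (flN fun x => {p | x ∈ B ∧ p ∈ Mem D x}) (y x)) :=
    fun h7 => h6 ⟨h5, h7⟩
  rw [mem_fnot] at h7
  push Not at h7
  obtain ⟨v, hv, hv'⟩ := h7
  obtain ⟨_, _, w, hw, _⟩ := hv' v le_rfl
  exact hfree x hxB _ hw.1 rfl

end Pool.Agent.U517.AF
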